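import Pool.Agent.U963.LN.Adic4

/-!
# Exponentially many knots near any knot between the orders `n` and `2 n - 1` of the Vassiliev invariants

Sliced diagrams (starting library `Pool.Agent.H835R2.Knot.Defs`): `Word` (lists of maxima, minima and crossings,
read from top to bottom), `IsKnot`, `crossings` (the number of the crossings), `IsInvariant v` (`v` is invariant
under planar isotopy and the Reidemeister moves), `DegreeLE n v` (`v` is a Vassiliev invariant of order at most
`n`: all alternating sums over the switchings of `n + 1` crossings of a knot diagram vanish).

Proof.  The knots are the connected sums of the given knot and the closures `K_ε` of the braids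
`[a_{n-1}, a_{n-2} ⋯ a_1 a_0 a_1⁻¹ ⋯ a_{n-2}⁻¹] σ_{n-1} ⋯ σ_0` on the strands `0, …, n`, where
`a_0 = σ_0 ^ 2` and `a_i = σ_i ^ {± 2}` for `i ≥ 1`.  The commutator is equal to `[a_{n-1}, [a_{n-2}, …, [a_1, a_0]]]` in
the braid group.  The Jones polynomials of the knots `K_ε` (computed in the Temperley-Lieb algebra, by partial
closures) are values of a linear recursion of rank three, with one of two matrices in each step.  The matrices
have a common triangular form, where the eigenvalues on the invariant line vanish to the order one at `t = 1`
and the `2 × 2` blocks to the order two.  So two Jones polynomials for different signs differ at `t = 1` to the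
order at most `2 n - 1` (the place where the signs differ for the first time can be seen from the order of
vanishing of the difference, unless the numbers of the signs differ).
-/

set_option autoImplicit false

namespace Pool.Agent.Results.MP_31fd3b_gt.BetweenOrders

open Pool.Agent.H835R2.Knot

/-- Let `D` be a diagram of a knot and `n ≥ 2`. There is a set `S` of `2 ^ (n - 1)` diagrams of knots with at
most `9 n - 7` crossings more than `D` (and at most `11 n - 7` maxima, minima and crossings more than `D`), and
`D ∉ S`, such that

* no Vassiliev invariant of order less than `n`, with values in any abelian group, separates any of the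
  `2 ^ (n - 1) + 1` diagrams in `S ∪ {D}`: each has the same value at all of them;
* every member of `S` is separated from `D` by a rational Vassiliev invariant of order at most `n`;
* a single rational Vassiliev invariant of order at most `2 n - 1` takes pairwise different values at the
  `2 ^ (n - 1) + 1` diagrams in `S ∪ {D}`, so they present pairwise different knots. -/
theorem result (D : Word) (hD : IsKnot D) (n : ℕ) (hn : 2 ≤ n) :
    ∃ S : Finset Word, S.card = 2 ^ (n - 1) ∧ D ∉ S ∧
      (∀ E ∈ S, IsKnot E ∧ crossings E ≤ crossings D + 9 * n - 7 ∧ E.length ≤ D.length + 11 * n - 7) ∧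
      (∀ E ∈ S, ∀ (A : Type) [AddCommGroup A] (v : Word → A) (d : ℕ), d < n →
        IsInvariant v → DegreeLE d v → v E = v D) ∧
      (∀ E ∈ S, ∃ v : Word → ℚ, IsInvariant v ∧ DegreeLE n v ∧ v E ≠ v D) ∧
      ∃ v : Word → ℚ, IsInvariant v ∧ DegreeLE (2 * n - 1) v ∧
        Set.InjOn v (insert D (S : Set Word)) :=
  Pool.Agent.U963.LX.many2 D hD n hn

end Pool.Agent.Results.MP_31fd3b_gt.BetweenOrders
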