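import Pool.Agent.U476.VA.Fin

/-!
# Vassiliev invariants of low order and coloured Jones polynomials

A braid word `w` on `n + 1` strands is a list of letters `(k, b)`: the strands `k` and `k + 1` cross, and
the sign of the crossing is `b`. For a commutative ring `A` and a unit `v` of `A`, `cj N n w v` is the
`N`-coloured Jones polynomial of the closure of `w` (all components have the colour `N`, the unknot has the
value `1`), where `v = q ^ (1 / 2)`:

* `gbr v n = v ^ n - v ^ (-n)`, `gb` are the Gaussian binomial coefficients;
* `gP`, `gN` are the R-matrix of `U_q(sl_2)` in the representation of dimension `N` and its inverse, with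
  the framing factor;
* `ggen`, `grep` are the operators of a letter and of a word;
* `gtail` is the partial quantum trace over the strands `1, ..., n`.

`tU` is the variable of `ℤ[T;T⁻¹]`, so that `cj N n w tU` is the coloured Jones polynomial as a Laurent
polynomial in `T = q ^ (1 / 2)`. `eU` is the power series `exp (h / 2)` in `ℚ⟦h⟧`, so that
`cj N n w eU` is the expansion of the coloured Jones polynomial at `q = exp h`. By the theorem of Birman
and Lin (Bar-Natan for all colours) its coefficient of `h ^ m` is a Vassiliev invariant of order at most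
`m`, for each `N`.
-/

set_option autoImplicit false

open Pool.Agent.U476.NB Pool.Agent.U476.VA
open scoped LaurentPolynomial PowerSeries

namespace Pool.Agent.Results.MP_31fd3b_gt.EffectiveBirmanLin

/-- **The Vassiliev invariants of order less than `M` determine the coloured Jones polynomials.**
Let `K` and `K'` be two links (for example knots) which are the closures of braid words `w`, `w'` with
`n + 1` and `n' + 1` strands, and let `n + length w ≤ L`, `n' + length w' ≤ L`. Suppose that the
coefficients of `h ^ m`, `m < M`, of the `N`-coloured Jones polynomials of `K` and `K'` at `q = exp h`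
agree.

1. Let `r = p ^ a ≥ N` be a power of an odd prime `p`. If `22 L r (log r) ^ 2 < M log p` then the
   `N`-coloured Jones polynomials of `K` and `K'` have the same values at all primitive `r`-th roots of
   unity `q` (`q = v ^ 2`, where `v` runs over the primitive `r`-th roots of unity). For a prime `N = r`
   the condition is `22 L N log N < M`, and the values are the Kashaev invariants (`q = exp (2 π i / N)`)
   and their Galois conjugates.
2. The same for `r = 2 ^ a ≥ 4` (`v` runs over the primitive roots of unity of order `2 r`).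
3. If `N ≥ 2` and `20000 L ^ (3 / 2) N (log (L N)) ^ (3 / 2) + 30000000 L ≤ M` then the `N`-coloured
   Jones polynomials of `K` and `K'` are equal. (Comparison of the degrees gives this only for
   `M ≥ c L N ^ 2`.) -/
theorem result (N n n' : ℕ) (w w' : List (ℕ × Bool)) (L M : ℕ) (hL : 1 ≤ L)
    (hw : n + w.length ≤ L) (hw' : n' + w'.length ≤ L)
    (h : ∀ m < M, PowerSeries.coeff m (cj N n w eU) = PowerSeries.coeff m (cj N n' w' eU)) :
    (∀ p a : ℕ, p.Prime → p ≠ 2 → 0 < a → N ≤ p ^ a →
      22 * (L : ℝ) * ((p ^ a : ℕ) * Real.log (p ^ a : ℕ) ^ 2) < M * Real.log p →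
      ∀ v : ℂˣ, IsPrimitiveRoot (v : ℂ) (p ^ a) → cj N n w v = cj N n' w' v) ∧
    (∀ a : ℕ, 2 ≤ a → N ≤ 2 ^ a →
      22 * (L : ℝ) * ((2 ^ a : ℕ) * Real.log (2 ^ a : ℕ) ^ 2) < M * Real.log (2 : ℕ) →
      ∀ v : ℂˣ, IsPrimitiveRoot (v : ℂ) (2 ^ (a + 1)) → cj N n w v = cj N n' w' v) ∧
    (2 ≤ N → 2 * 10 ^ 4 * ((L : ℝ) * N * Real.log (L * N) * √(L * Real.log (L * N))) +
        3 * 10 ^ 7 * L ≤ M → cj N n w tU = cj N n' w' tU) :=
  ⟨fun _ _ hp hp2 ha hN hM v hv => values hp hp2 ha hN n n' w w' L M hL hw hw' h hM v hv,
    fun _ ha hN hM v hv => values2 ha hN n n' w w' L M hL hw hw' h hM v hv,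
    fun hN hM => final hN n n' w w' L M hL hw hw' hM h⟩

end Pool.Agent.Results.MP_31fd3b_gt.EffectiveBirmanLin
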