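import Pool.Agent.U449.BV.R
import Pool.Agent.Results.MP_31fd3b_gt.FullTwistPairs

/-!
# Vassiliev invariants of one order separate pairs in families with several full twists, near the values of polynomials

Let two families of links be given, with `w e` full twists in the box `e` for `k` boxes, and with `w' e` full twists in the box `e` for
`k'` boxes, `k + k' = l`. Let `0 ≤ κ`, `l - 1 + l κ < δ ≤ l`, let `p` be a large prime, `f(x, y)` ANY polynomial of bounded degree over the
field of `p ^ l` elements with a monomial which contains both variables (for example `f = x y`), let `A`, `B` be ARBITRARY subsets of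
this field with at least `p ^ δ` elements, and `g`, `h` ARBITRARY functions. For all the pairs `(a, b)` in `A × B`, apart from a proportion
of at most `p ^ (-ρ)`, and for ALL integral vectors `(w, w')` at a distance of at most `p ^ κ` from the vector of the least residues
of the `l` coordinates of `f(a, b) + g(a) + h(b)`: the links given by `w` and `w'` are separated by Vassiliev invariants of order at
most `N`, a number which depends on the two families only, unless all normalised brackets of both families are the same.
More generally, this holds for the values `F(a, b)` of all vector functions of two variables with few coincidences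
(`RareV`), on arbitrary finite sets.

Since the sets and the functions `g` and `h` are arbitrary, the vectors have no arithmetic structure, and a vector may be
taken by very many pairs. So the number of the exceptions (starting library) does not give the result directly. Proof: the
inequality of Cauchy and Schwarz; for most pairs `a, a'` the difference `F(a, b) - F(a', b)` is small for few `b`
(`Pool.Agent.U449.BV`).
-/

set_option autoImplicit false

namespace Pool.Agent.Results.MP_31fd3b_gt.MixedFullTwists

open Pool.Agent.H891R2.Jones Pool.Agent.H297.FT Pool.Agent.H832R3.VJ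
open Pool.Agent.U449.BV (RareV OnProductsV on_products_pairs coordinates)

/-- For ALL `w ∈ ℤ^k`, `w' ∈ ℤ^k'` with `|w_i - x_i| ≤ W`, `|w'_i - x_{k+i}| ≤ W` for all `i` the links with `w e` and `w' e` full twists
in the boxes `e` are separated by Vassiliev invariants of order at most `N`. -/
def Near {m k m' k' : ℕ} (O : Outer m) (B : Boxes m k) (O' : Outer m') (B' : Boxes m' k') (N : ℕ) (W : ℝ)
    (x : Fin (k + k') → ℝ) : Prop :=
  ∀ (w : Fin k → ℤ) (w' : Fin k' → ℤ), (∀ i, |(w i : ℝ) - x (Fin.castAdd k' i)| ≤ W) →
    (∀ i, |(w' i : ℝ) - x (Fin.natAdd k i)| ≤ W) → Separated N (dia O B w) (dia O' B' w')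

/-- **Theorem.** Let two families of links with full twists in `k` and in `k'` boxes be given. There is `N` such that either all normalised
brackets of both families are the same, or for `κ ≥ 0` the property `Near`, with windows of length
`X ^ κ`, holds for almost all values of vector functions of two variables with few coincidences, on arbitrary finite
sets of at least `X ^ δ` elements, `l - 1 + l κ < δ ≤ l`, `l = k + k'` (`OnProductsV`).
The tuples of the least residues modulo `p` of the coordinates (with respect to a basis over the field of `p` elements) of
`f(a, b) + g(a) + h(b)` in a field of `p ^ k` elements are such a function, with `X = p`, for all polynomials `f` over this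
field with a monomial which contains both variables, arbitrary functions `g` and `h`, and arbitrary finite subsets. -/
theorem result :
    (∀ (m k m' k' : ℕ), 0 < m → 0 < m' → ∀ O : Outer m, O.close.IsClosed → ∀ (B : Boxes m k) (O' : Outer m'),
      O'.close.IsClosed → ∀ B' : Boxes m' k', ∃ N : ℕ,
      (∀ w w', (family O B w).fPoly = (family O' B' w').fPoly) ∨
      ∀ κ : ℝ, 0 ≤ κ → OnProductsV (k + k') (((k + k' - 1 : ℕ) : ℝ) + ((k + k' : ℕ) : ℝ) * κ) κ (Near O B O' B' N)) ∧
    ∀ (p : ℕ) [Fact p.Prime] (k : ℕ) (K : Type) [Field K] [Algebra (ZMod p) K] (e : Module.Basis (Fin k) (ZMod p) K)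
      (d : ℕ) (f : MvPolynomial (Fin 2) K), f.totalDegree ≤ d → (∃ m ∈ f.support, m 0 ≠ 0 ∧ m 1 ≠ 0) →
      ∀ (g h : K → K) (A B : Finset K),
        RareV d A B (fun a b i => (((e.repr (MvPolynomial.eval ![a, b] f + g a + h b) i).val : ℕ) : ℝ)) := by
  classical
  refine ⟨fun m k m' k' hm hm' O hO B O' hO' B' => ?_, coordinates⟩
  obtain ⟨N, -, h⟩ := (FullTwistPairs.result hm hm' O hO B O' hO' B').2.2
  refine ⟨N, ?_⟩
  rcases h with h | h
  · exact Or.inl h
  · refine Or.inr fun κ hκ => ?_
    refine (on_products_pairs {p : (Fin k → ℤ) × (Fin k' → ℤ) | ¬ Separated N (dia O B p.1) (dia O' B' p.2)}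
      (fun e => B.size e / 2 + 1) (fun e => B'.size e / 2 + 1) hκ (fun A A' => ?_)).mono
      (fun W x _ h' w w' hw hw' => not_not.1 (h' (w, w') hw hw'))
    refine le_trans (le_of_eq ?_) (h A A')
    rw [← Set.ncard_coe_finset]
    congr 1
    ext p
    simp only [Set.mem_ofPred_eq, Finset.coe_filter, Finset.mem_product, Fintype.mem_piFinset]

end Pool.Agent.Results.MP_31fd3b_gt.MixedFullTwists
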