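import Pool.Agent.U405.RS.G5
import Pool.Agent.U951.TR.Abs
import Pool.Agent.Results.MP_31fd3b_gt.FullTwistPairs

/-!
# Vassiliev invariants of one order separate pairs in families with several full twists, with numbers of twists from thin sets

Let two families of links be given, with `w e` full twists in the box `e` for `k` boxes, and with `w' e` full twists in
the box `e` for `k'` boxes, `l = k + k'`. Let `F_1, …, F_l` be positive multiplicative functions of at most polynomial
growth which for each `a ≥ 1` are injective at the powers `q ^ a` of the large primes and at most `M q ^ a` there; for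
example the identity, Euler's function or the sum of the divisors. Let `l τ > l - 1`, `0 < τ ≤ 1`, and let each of the
sets `S_1, …, S_l` be a set of shifted primes `q + a_i`, `q ≤ x`, or an interval `(u, u + h]`, `u ≤ x`, `x ^ τ ≤ h ≤ x`.
For all `m` in `S_1 × ⋯ × S_l` but at most `|S_1| ⋯ |S_l| / (log x) ^ U` (any `U`): ALL the pairs of links of the two
families with `F_i(m_i)` full twists (of either sign in each box, all `2 ^ l` choices) are separated by Vassiliev
invariants of order at most `N`, a number which depends on the two families only, unless all normalised brackets of both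
families are the same.

Proof. The number of the exceptional pairs of vectors in boxes is small (starting result). The tuples `F_i(m_i)` have
density zero or are taken with large and uneven multiplicities, so that the size of the exceptional set says nothing
about them; they are treated by the tool `Pool.Agent.U405.RS` of helper405 (a thin set has few multiples of each
`n ≤ x^δ`, Rankin's method, fibres over slabs).
-/

set_option autoImplicit false

namespace Pool.Agent.Results.MP_31fd3b_gt.ThinTuples

open Pool.Agent.H891R2.Jones Pool.Agent.H297.FT Pool.Agent.H832R3.VJ
open Pool.Agent.U405.RS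
open Pool.Agent.U951.TR.Abs (Signs count box_pairs)

/-- For ALL vectors `v` of `k + k'` integers with the absolute values `w` the links with `v_e` full twists in the box `e` of
the first family and `v_{k+e}` full twists in the box `e` of the second one are separated by Vassiliev invariants of order
at most `N`. -/
def AllSeparated {m k m' k' : ℕ} (O : Outer m) (B : Boxes m k) (O' : Outer m') (B' : Boxes m' k') (N : ℕ)
    (w : Fin (k + k') → ℕ) : Prop :=
  ∀ v : Fin (k + k') → ℤ, Signs w v →
    Separated N (dia O B fun i => v (Fin.castAdd k' i)) (dia O' B' fun i => v (Fin.natAdd k i))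

/-- **Theorem.** Let two families of links with full twists in `k` and in `k'` boxes be given, `l = k + k' ≥ 1`. There is
`N` such that either all normalised brackets of both families are the same, or for all families `F` of `l` functions in
the class `PM` and all `U`, in the sense of `ThinAll 1 F U` (with a saving of `(log x)^U`, for almost all `m` in all
products of `l` sets, each one the set of the shifted primes `q + a_i`, `q ≤ x`, or an interval `(u, u + h]`, `u ≤ x`,
`x^τ ≤ h ≤ x`, whenever `0 < τ ≤ 1`, `l τ > l - 1`): all `F_i(m_i)` are at least `2` and all the pairs of links with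
`± F_i(m_i)` full twists are separated by Vassiliev invariants of order at most `N`. Euler's function, the sum of the
divisors and the identity are in the class. -/
theorem result :
    (∀ (m k m' k' : ℕ), 0 < m → 0 < m' → 1 ≤ k + k' → ∀ O : Outer m, O.close.IsClosed → ∀ (B : Boxes m k) (O' : Outer m'),
      O'.close.IsClosed → ∀ B' : Boxes m' k', ∃ N : ℕ,
      (∀ w w', (family O B w).fPoly = (family O' B' w').fPoly) ∨
      ∀ F : Fin (k + k') → ℕ → ℕ, (∀ i, PM (F i)) → ∀ U : ℕ,
        ThinAll 1 F U (fun (_ : Unit) w => (∀ i, 2 ≤ w i) ∧ AllSeparated O B O' B' N w)) ∧
    (PM Nat.totient ∧ PM (fun m => ∑ d ∈ m.divisors, d) ∧ PM (fun m => m)) := by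
  classical
  refine ⟨fun m k m' k' hm hm' hk O hO B O' hO' B' => ?_, examplesT⟩
  obtain ⟨N, -, h⟩ := (FullTwistPairs.result hm hm' O hO B O' hO' B').2.2
  refine ⟨N, ?_⟩
  rcases h with h | h
  · exact Or.inl h
  · refine Or.inr fun F hF U => ?_
    refine thinAll_two hk hF one_pos
      (((∑ e, (B.size e / 2 + 1) + ∑ e, (B'.size e / 2 + 1)) * 3 ^ (k + k' - 1) : ℕ) : ℝ) _ (fun _ X hX => ?_) U
    refine count hk (G := fun v => Separated N (dia O B fun i => v (Fin.castAdd k' i)) (dia O' B' fun i => v (Fin.natAdd k i)))
      (box_pairs (G := fun a b => Separated N (dia O B a) (dia O' B' b)) (fun e => B.size e / 2 + 1)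
        (fun e => B'.size e / 2 + 1) (fun A A' => ?_)) X hX
    refine le_trans (le_of_eq ?_) (h A A')
    rw [← Set.ncard_coe_finset]
    congr 1
    ext p
    simp only [Set.mem_ofPred_eq, Finset.coe_filter, Finset.mem_product, Fintype.mem_piFinset]

end Pool.Agent.Results.MP_31fd3b_gt.ThinTuples
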